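import Pool.Agent.R117.SD.MidA

/-!
# MP_77e9aa_lc: the case `2 < p < 3`, from colourings to assignments
-/

set_option autoImplicit false

namespace Pool.Agent.R117.SD

open Pool.Agent.NPC Pool.Agent.R544 Pool.Agent.R539.SD

/-- the colour of `v` is in the window of `d` colours starting at `i` -/
def InW {k : ℕ} (c : Vx → ZMod k) (d : ℕ) (i : ZMod k) (v : Vx) : Prop :=
  ∃ t : ℕ, t < d ∧ c v = i + (t : ZMod k)

theorem no2 {E : Dg} {k d : ℕ} {c : Vx → ZMod k} (hc : IsCol E k d c) {u v : Vx}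
    (h1 : (u, v) ∈ E) (h2 : (v, u) ∈ E) (i : ZMod k) (hu : InW c d i u) (hv : InW c d i v) :
    False :=
  hc i u (Relation.TransGen.tail (Relation.TransGen.single ⟨h1, hu, hv⟩) ⟨h2, hv, hu⟩)

theorem no3 {E : Dg} {k d : ℕ} {c : Vx → ZMod k} (hc : IsCol E k d c) {u v w : Vx}
    (h1 : (u, v) ∈ E) (h2 : (v, w) ∈ E) (h3 : (w, u) ∈ E) (i : ZMod k) (hu : InW c d i u)
    (hv : InW c d i v) (hw : InW c d i w) : False :=
  hc i u (Relation.TransGen.tail (Relation.TransGen.tail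
    (Relation.TransGen.single ⟨h1, hu, hv⟩) ⟨h2, hv, hw⟩) ⟨h3, hw, hu⟩)

/-- both-way arcs: the difference of the colours -/
theorem diff2 {E : Dg} {k d : ℕ} (hd : 1 ≤ d) (hk : d ≤ k) {c : Vx → ZMod k}
    (hc : IsCol E k d c) {u v : Vx} (h1 : (u, v) ∈ E) (h2 : (v, u) ∈ E) :
    ∃ s : ℕ, d ≤ s ∧ s + d ≤ k ∧ c v = c u + (s : ZMod k) := by
  haveI : NeZero k := ⟨by omega⟩
  have e : ∀ x y : ZMod k, y = x + ((y - x).val : ZMod k) := by
    intro x y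
    rw [ZMod.natCast_zmod_val]; ring
  refine ⟨(c v - c u).val, ?_, ?_, e _ _⟩
  · by_contra hcon
    push Not at hcon
    exact no2 hc h1 h2 (c u) ⟨0, by omega, by simp⟩ ⟨_, hcon, e _ _⟩
  · by_contra hcon
    push Not at hcon
    have hlt : (c v - c u).val < k := ZMod.val_lt _
    refine no2 hc h1 h2 (c v) ⟨k - (c v - c u).val, by omega, ?_⟩ ⟨0, by omega, by simp⟩
    rw [Nat.cast_sub hlt.le, ZMod.natCast_zmod_val, ZMod.natCast_self]
    ring

theorem path_ends {j k d : ℕ} {φ : N3} (hd : 1 ≤ d) (hk : d ≤ k) {c : Vx → ZMod k}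
    (hc : IsCol (midDg j φ) k d c) (i : ℕ) (hi : i ≤ j) :
    ∃ s : ℤ, |s| ≤ i * ((k : ℤ) - 2 * d) ∧ c (2, 2 * i, 0) = c (2, 0, 0) + (s : ZMod k) := by
  induction i with
  | zero => exact ⟨0, by simp, by simp⟩
  | succ i ih =>
    obtain ⟨s, hs, he⟩ := ih (by omega)
    have m1 : ∀ t < 2 * j, (((2, t, 0) : Vx), ((2, t + 1, 0) : Vx)) ∈ midDg j φ := fun t ht =>
      mem_mid.2 (Or.inl ⟨t, ht, Or.inl rfl⟩)
    have m2 : ∀ t < 2 * j, (((2, t + 1, 0) : Vx), ((2, t, 0) : Vx)) ∈ midDg j φ := fun t ht =>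
      mem_mid.2 (Or.inl ⟨t, ht, Or.inr rfl⟩)
    obtain ⟨s1, a1, a2, a3⟩ := diff2 hd hk hc (m1 (2 * i) (by omega)) (m2 (2 * i) (by omega))
    obtain ⟨s2, b1, b2, b3⟩ := diff2 hd hk hc (m1 (2 * i + 1) (by omega))
      (m2 (2 * i + 1) (by omega))
    refine ⟨s + s1 + s2 - k, ?_, ?_⟩
    · have h1 : |s + (s1 : ℤ) + s2 - k| ≤ |s| + |(s1 : ℤ) + s2 - k| := by
        have : s + (s1 : ℤ) + s2 - k = s + (s1 + s2 - k) := by ring
        rw [this]
        exact abs_add_le _ _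
      have h2 : |(s1 : ℤ) + s2 - k| ≤ k - 2 * d := by
        rw [abs_le]
        constructor <;> omega
      push_cast
      linarith
    · have e1 : 2 * (i + 1) = 2 * i + 1 + 1 := by ring
      rw [e1, b3, a3, he]
      push_cast
      rw [ZMod.natCast_self]
      ring

theorem backward {j k d : ℕ} (hj : 1 ≤ j) {φ : N3} (hd : 1 ≤ d) (hk : d ≤ k)
    (hlt : k * j < (2 * j + 1) * d) {c : Vx → ZMod k} (hc : IsCol (midDg j φ) k d c) :
    NAE3 φ := by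
  haveI : NeZero k := ⟨by omega⟩
  have m1 : (((2, 0, 0) : Vx), ((2, 0 + 1, 0) : Vx)) ∈ midDg j φ :=
    mem_mid.2 (Or.inl ⟨0, by omega, Or.inl rfl⟩)
  have m2 : (((2, 0 + 1, 0) : Vx), ((2, 0, 0) : Vx)) ∈ midDg j φ :=
    mem_mid.2 (Or.inl ⟨0, by omega, Or.inr rfl⟩)
  have hk2 : 2 * d ≤ k := by
    obtain ⟨s, h1, h2, -⟩ := diff2 hd hk hc m1 m2
    omega
  obtain ⟨s0, hs0, he0⟩ := path_ends hd hk hc j le_rfl
  have mz : (((2, 0, 0) : Vx), ((2, 2 * j, 0) : Vx)) ∈ midDg j φ :=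
    mem_mid.2 (Or.inr (Or.inl rfl))
  -- `w = k - 2 d`
  obtain ⟨w, hw⟩ : ∃ w : ℕ, k = 2 * d + w := ⟨k - 2 * d, by omega⟩
  have hwj : w * j < d := by
    rw [hw] at hlt
    nlinarith
  have hs0' : s0.natAbs ≤ j * w := by
    have h1 : (s0.natAbs : ℤ) ≤ j * w := by
      rw [Int.natCast_natAbs]
      have : (k : ℤ) - 2 * d = w := by rw [hw]; push_cast; ring
      rw [this] at hs0
      exact hs0
    exact_mod_cast h1
  -- the two ends
  obtain ⟨L, s, hs, hL⟩ : ∃ (L : ZMod k) (s : ℕ), s ≤ j * w ∧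
      ∀ i : ZMod k, (∃ t : ℕ, t < d ∧ L = i + (t : ZMod k)) →
        (∃ t : ℕ, t < d ∧ L + (s : ZMod k) = i + (t : ZMod k)) →
        InW c d i (2, 0, 0) ∧ InW c d i (2, 2 * j, 0) := by
    rcases le_total 0 s0 with h | h
    · refine ⟨c (2, 0, 0), s0.natAbs, hs0', fun i h1 h2 => ⟨h1, ?_⟩⟩
      obtain ⟨t, ht, h3⟩ := h2
      refine ⟨t, ht, ?_⟩
      rw [he0, ← h3]
      congr 1
      have : s0 = (s0.natAbs : ℤ) := by omega
      rw [this]; simp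
    · refine ⟨c (2, 2 * j, 0), s0.natAbs, hs0', fun i h1 h2 => ⟨?_, h1⟩⟩
      obtain ⟨t, ht, h3⟩ := h2
      refine ⟨t, ht, ?_⟩
      rw [← h3, he0]
      have : s0 = -(s0.natAbs : ℤ) := by omega
      have h4 : (s0 : ZMod k) = -((s0.natAbs : ℕ) : ZMod k) := by
        conv_lhs => rw [this]
        simp
      rw [h4]; ring
  have hsd : s < d := by
    have : j * w = w * j := by ring
    omega
  set X : Vx → ℕ := fun v => (c v - L).val with hX
  have eX : ∀ v, c v = L + (X v : ZMod k) := by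
    intro v
    rw [hX]
    simp only
    rw [ZMod.natCast_zmod_val]; ring
  have hXk : ∀ v, X v < k := fun v => ZMod.val_lt _
  have memc : ∀ {t : ℕ} {e : Vx × Vx}, t < φ.length →
      e ∈ clauseM j t (tr φ t).1 (tr φ t).2.1 (tr φ t).2.2 → e ∈ midDg j φ := fun ht he =>
    mem_mid.2 (Or.inr (Or.inr ⟨_, ht, he⟩))
  have hDarc : ∀ v, DV φ v → (((2, 2 * j, 0) : Vx), v) ∈ midDg j φ ∧
      (v, ((2, 0, 0) : Vx)) ∈ midDg j φ := by
    rintro v ⟨t, ht, i, hi, rfl | rfl⟩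
    · exact ⟨memc ht (mem_clause.2 ⟨i, hi, by simp⟩), memc ht (mem_clause.2 ⟨i, hi, by simp⟩)⟩
    · exact ⟨memc ht (mem_clause.2 ⟨i, hi, by simp⟩), memc ht (mem_clause.2 ⟨i, hi, by simp⟩)⟩
  have hlow : ∀ v, DV φ v → d ≤ X v := by
    intro v hv
    by_contra hcon
    push Not at hcon
    obtain ⟨h1, h2⟩ := hL L ⟨0, by omega, by simp⟩ ⟨s, hsd, rfl⟩
    exact no3 hc mz (hDarc v hv).1 (hDarc v hv).2 L h1 h2 ⟨X v, hcon, eX v⟩
  have hup : ∀ v, DV φ v → X v ≤ k - d + s := by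
    intro v hv
    by_contra hcon
    push Not at hcon
    have hlt2 := hXk v
    obtain ⟨h1, h2⟩ := hL (c v) ⟨k - X v, by omega, by
        rw [eX v, Nat.cast_sub hlt2.le, ZMod.natCast_self]; ring⟩
      ⟨k - X v + s, by omega, by
        rw [eX v, Nat.cast_add, Nat.cast_sub hlt2.le, ZMod.natCast_self]; ring⟩
    exact no3 hc mz (hDarc v hv).1 (hDarc v hv).2 (c v) h1 h2 ⟨0, by omega, by simp⟩
  have h3d : ∀ v, DV φ v → X v < 3 * d := by
    intro v hv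
    have h1 := hup v hv
    have h2 : j * w = w * j := by ring
    have h3 : w ≤ w * j := Nat.le_mul_of_pos_right _ hj
    omega
  -- classes
  have cl : ∀ v, DV φ v → (X v < 2 * d → InW c d (L + (d : ZMod k)) v) ∧
      (¬ X v < 2 * d → InW c d (L + ((2 * d : ℕ) : ZMod k)) v) := by
    intro v hv
    have h1 := hlow v hv
    have h2 := h3d v hv
    refine ⟨fun h => ⟨X v - d, by omega, ?_⟩, fun h => ⟨X v - 2 * d, by omega, ?_⟩⟩
    · rw [eX v, Nat.cast_sub h1]; ring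
    · rw [eX v, Nat.cast_sub (by omega : 2 * d ≤ X v)]; ring
  have dv1 : ∀ t < φ.length, ∀ i < 3, DV φ (1, t, i) := fun t ht i hi =>
    ⟨t, ht, i, hi, Or.inl rfl⟩
  have dv0 : ∀ t < φ.length, ∀ i < 3, DV φ (0, ov φ t i, 0) := fun t ht i hi =>
    ⟨t, ht, i, hi, Or.inr rfl⟩
  rw [nae3_iff]
  refine ⟨fun a => decide (X (0, a, 0) < 2 * d), fun t ht hcon => ?_⟩
  have opp : ∀ i < 3, (X (0, ov φ t i, 0) < 2 * d ↔ ¬ X (1, t, i) < 2 * d) := by
    intro i hi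
    have g1 : (((1, t, i) : Vx), ((0, ov φ t i, 0) : Vx)) ∈ midDg j φ :=
      memc ht (mem_clause.2 ⟨i, hi, by simp⟩)
    have g2 : (((0, ov φ t i, 0) : Vx), ((1, t, i) : Vx)) ∈ midDg j φ :=
      memc ht (mem_clause.2 ⟨i, hi, by simp⟩)
    constructor
    · intro h1 h2
      exact no2 hc g1 g2 _ ((cl _ (dv1 t ht i hi)).1 h2) ((cl _ (dv0 t ht i hi)).1 h1)
    · intro h1
      by_contra h2
      exact no2 hc g1 g2 _ ((cl _ (dv1 t ht i hi)).2 h1) ((cl _ (dv0 t ht i hi)).2 h2)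
  have e0 : ov φ t 0 = (tr φ t).1 := rfl
  have e1 : ov φ t 1 = (tr φ t).2.1 := rfl
  have e2 : ov φ t 2 = (tr φ t).2.2 := rfl
  rw [← e0, ← e1, ← e2] at hcon
  simp only [decide_eq_decide] at hcon
  have o0 := opp 0 (by norm_num)
  have o1 := opp 1 (by norm_num)
  have o2 := opp 2 (by norm_num)
  have t01 : (((1, t, 0) : Vx), ((1, t, 1) : Vx)) ∈ midDg j φ :=
    memc ht (mem_clause.2 ⟨0, by norm_num, by simp⟩)
  have t12 : (((1, t, 1) : Vx), ((1, t, 2) : Vx)) ∈ midDg j φ :=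
    memc ht (mem_clause.2 ⟨1, by norm_num, by simp⟩)
  have t20 : (((1, t, 2) : Vx), ((1, t, 0) : Vx)) ∈ midDg j φ :=
    memc ht (mem_clause.2 ⟨2, by norm_num, by simp⟩)
  by_cases h0 : X (1, t, 0) < 2 * d
  · have h1 : X (1, t, 1) < 2 * d := by tauto
    have h2 : X (1, t, 2) < 2 * d := by tauto
    exact no3 hc t01 t12 t20 _ ((cl _ (dv1 t ht 0 (by norm_num))).1 h0)
      ((cl _ (dv1 t ht 1 (by norm_num))).1 h1) ((cl _ (dv1 t ht 2 (by norm_num))).1 h2)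
  · have h1 : ¬ X (1, t, 1) < 2 * d := by tauto
    have h2 : ¬ X (1, t, 2) < 2 * d := by tauto
    exact no3 hc t01 t12 t20 _ ((cl _ (dv1 t ht 0 (by norm_num))).2 h0)
      ((cl _ (dv1 t ht 1 (by norm_num))).2 h1) ((cl _ (dv1 t ht 2 (by norm_num))).2 h2)

end Pool.Agent.R117.SD
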