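import Pool.Agent.R117.SD.MidB
import Pool.Agent.R117.SD.MidC

/-!
# MP_77e9aa_lc: `STAR_p` is NP-hard for `2 < p < 3`
-/

set_option autoImplicit false

namespace Pool.Agent.R117.SD

open Pool.Agent.NPC Pool.Agent.R544 Pool.Agent.R539.SD

theorem poly_midDg (j : ℕ) : NPC.Poly (midDg j) := by
  unfold midDg
  have hn : UPoly (fun φ : N3 => φ.length) := UPoly.length NPC.Poly.id
  refine NPC.Poly.append (by fun_prop) (NPC.Poly.append (by fun_prop) ?_)
  refine NPC.Poly.flatMap (l := fun φ : N3 => List.range φ.length)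
    (F := fun (φ : N3) t => clauseM j t (tr φ t).1 (tr φ t).2.1 (tr φ t).2.2) hn.range ?_
  unfold clauseM both hubM
  fun_prop

theorem star_mid (hcol : SCOL) (hinf : SINF) {j : ℕ} (hj : 1 ≤ j) {p : ℝ}
    (h1 : 2 + 1 / ((j : ℝ) + 1) ≤ p) (h2 : p < 2 + 1 / (j : ℝ)) (φ : N3) :
    NAE3 φ ↔ Star p (midDg j φ) := by
  have hj0 : (0 : ℝ) < j := by exact_mod_cast hj
  constructor
  · intro h
    refine ⟨loopless_mid hj φ, ?_⟩
    obtain ⟨C, hC, hY⟩ := forward hj h
    have hk : 2 * j + 3 - (j + 1) = j + 2 := by omega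
    have h3 := hcol (midDg j φ) (2 * j + 3) (j + 1) C (by omega) (by omega) hC (by rwa [hk])
    refine le_trans (csInf_le ⟨0, ?_⟩ ⟨2 * j + 3, j + 1, by omega, by omega, rfl, _, h3⟩) ?_
    · rintro x ⟨k, d, _, _, rfl, _⟩
      positivity
    · refine le_trans (le_of_eq ?_) h1
      push_cast
      field_simp
      ring
  · rintro ⟨hl, hs⟩
    obtain ⟨k, d, hd, hk, hlt, c, hc⟩ := hinf _ hl _ (lt_of_le_of_lt hs h2)
    refine backward hj hd hk ?_ hc
    have h3 : (k : ℝ) * j < (2 * j + 1) * d := by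
      have h4 : (k : ℝ) * j < (2 + 1 / (j : ℝ)) * d * j := mul_lt_mul_of_pos_right hlt hj0
      refine lt_of_lt_of_eq h4 ?_
      field_simp
    exact_mod_cast h3

/-- `STAR_p` is NP-hard for `2 < p < 3`. -/
theorem mid (hcol : SCOL) (hinf : SINF) : SMID := by
  intro p hp2 hp3
  have hq : 0 < p - 2 := by linarith
  have hx : 1 < 1 / (p - 2) := by
    rw [lt_div_iff₀ hq]
    linarith
  obtain ⟨m, hm⟩ : ∃ m : ℕ, m = ⌈1 / (p - 2)⌉₊ := ⟨_, rfl⟩
  have hm1 : 1 / (p - 2) ≤ m := by rw [hm]; exact Nat.le_ceil _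
  have hm2 : (m : ℝ) < 1 / (p - 2) + 1 := by
    rw [hm]; exact Nat.ceil_lt_add_one (by positivity)
  have hm3 : 2 ≤ m := by
    have : (1 : ℝ) < m := lt_of_lt_of_le hx hm1
    have : 1 < m := by exact_mod_cast this
    omega
  obtain ⟨j, rfl⟩ : ∃ j, m = j + 1 := ⟨m - 1, by omega⟩
  have hj : 1 ≤ j := by omega
  have hj0 : (0 : ℝ) < j := by exact_mod_cast hj
  push_cast at hm1 hm2
  have h1 : 2 + 1 / ((j : ℝ) + 1) ≤ p := by
    have h3 : 1 / ((j : ℝ) + 1) ≤ p - 2 := by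
      rw [div_le_iff₀ (by positivity)]
      rw [div_le_iff₀ hq] at hm1
      linarith
    linarith
  have h2 : p < 2 + 1 / (j : ℝ) := by
    have h3 : p - 2 < 1 / (j : ℝ) := by
      rw [lt_div_iff₀ hj0]
      have h4 : (j : ℝ) < 1 / (p - 2) := by linarith
      rw [lt_div_iff₀ hq] at h4
      linarith
    linarith
  exact (hardPr_NAE3.trans (Pr' := fun _ : Dg => True) (poly_midDg j) (fun _ _ => trivial)
    (fun φ _ => star_mid hcol hinf hj h1 h2 φ)).toHardI.toNPHardP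

end Pool.Agent.R117.SD
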