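import Pool.Agent.R539.SD.Stm

/-!
# MP_77e9aa_lc: the digraph for `2 < p < 3`, and colourings from assignments
-/

set_option autoImplicit false

namespace Pool.Agent.R117.SD

open Pool.Agent.NPC Pool.Agent.R544 Pool.Agent.R539.SD

/-- both arcs -/
def both (u v : Vx) : Dg := [(u, v), (v, u)]

/-- the path of both-way arcs -/
def pathM (j : ℕ) : Dg := (List.range (2 * j)).flatMap fun t => both (2, t, 0) (2, t + 1, 0)

/-- the arcs from the end of the path to `v` and from `v` to its beginning -/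
def hubM (j : ℕ) (v : Vx) : Dg := [((2, 2 * j, 0), v), (v, (2, 0, 0))]

/-- the part of a clause -/
def clauseM (j t a b c : ℕ) : Dg :=
  both (1, t, 0) (0, a, 0) ++ (both (1, t, 1) (0, b, 0) ++ (both (1, t, 2) (0, c, 0) ++
    ([((1, t, 0), (1, t, 1)), ((1, t, 1), (1, t, 2)), ((1, t, 2), (1, t, 0))] ++
      (hubM j (0, a, 0) ++ (hubM j (0, b, 0) ++ (hubM j (0, c, 0) ++
        (hubM j (1, t, 0) ++ (hubM j (1, t, 1) ++ hubM j (1, t, 2)))))))))

/-- the digraph -/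
def midDg (j : ℕ) (φ : N3) : Dg :=
  pathM j ++ ([((2, 0, 0), (2, 2 * j, 0))] ++ (List.range φ.length).flatMap fun t =>
    clauseM j t (tr φ t).1 (tr φ t).2.1 (tr φ t).2.2)

theorem mem_mid {j : ℕ} {φ : N3} {e : Vx × Vx} : e ∈ midDg j φ ↔
    (∃ t < 2 * j, e = ((2, t, 0), (2, t + 1, 0)) ∨ e = ((2, t + 1, 0), (2, t, 0))) ∨
    e = ((2, 0, 0), (2, 2 * j, 0)) ∨
    ∃ t < φ.length, e ∈ clauseM j t (tr φ t).1 (tr φ t).2.1 (tr φ t).2.2 := by
  unfold midDg pathM both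
  simp only [List.mem_append, List.mem_flatMap, List.mem_range, List.mem_cons,
    List.not_mem_nil, or_false]

/-- the variable of an occurrence -/
def ov (φ : N3) (t i : ℕ) : ℕ :=
  if i = 0 then (tr φ t).1 else if i = 1 then (tr φ t).2.1 else (tr φ t).2.2

/-- the vertices of the formula -/
def DV (φ : N3) (v : Vx) : Prop :=
  ∃ t < φ.length, ∃ i < 3, v = (1, t, i) ∨ v = (0, ov φ t i, 0)

theorem mem_clause {j : ℕ} {φ : N3} {t : ℕ} {e : Vx × Vx} :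
    e ∈ clauseM j t (tr φ t).1 (tr φ t).2.1 (tr φ t).2.2 ↔
    (∃ i < 3, e = ((1, t, i), (0, ov φ t i, 0)) ∨ e = ((0, ov φ t i, 0), (1, t, i)) ∨
      e = ((1, t, i), (1, t, (i + 1) % 3)) ∨
      e = ((2, 2 * j, 0), (1, t, i)) ∨ e = ((2, 2 * j, 0), (0, ov φ t i, 0)) ∨
      e = ((1, t, i), (2, 0, 0)) ∨ e = ((0, ov φ t i, 0), (2, 0, 0))) := by
  unfold clauseM both hubM
  simp only [List.mem_append, List.mem_cons, List.not_mem_nil, or_false]
  constructor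
  · intro h
    rcases h with h | h | h | h | h | h | h | h | h | h
    · exact ⟨0, by norm_num, by simp only [ov]; tauto⟩
    · exact ⟨1, by norm_num, by simp only [ov]; simp; tauto⟩
    · exact ⟨2, by norm_num, by simp only [ov]; simp; tauto⟩
    · rcases h with h | h | h
      · exact ⟨0, by norm_num, by simp [h]⟩
      · exact ⟨1, by norm_num, by simp [h]⟩
      · exact ⟨2, by norm_num, by simp [h]⟩
    · exact ⟨0, by norm_num, by simp only [ov]; simp; tauto⟩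
    · exact ⟨1, by norm_num, by simp only [ov]; simp; tauto⟩
    · exact ⟨2, by norm_num, by simp only [ov]; simp; tauto⟩
    · exact ⟨0, by norm_num, by simp only [ov]; simp; tauto⟩
    · exact ⟨1, by norm_num, by simp only [ov]; simp; tauto⟩
    · exact ⟨2, by norm_num, by simp only [ov]; simp; tauto⟩
  · rintro ⟨i, hi, h⟩
    have h3 : i = 0 ∨ i = 1 ∨ i = 2 := by omega
    rcases h3 with rfl | rfl | rfl
    · simp only [ov] at h; simp at h; tauto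
    · simp only [ov] at h; simp at h; tauto
    · simp only [ov] at h; simp at h; tauto

/-- three kinds of arcs at a vertex of the path -/
theorem mid_cases {j : ℕ} {φ : N3} {u v : Vx} (h : (u, v) ∈ midDg j φ) :
    (∃ t < 2 * j, (u = (2, t, 0) ∧ v = (2, t + 1, 0)) ∨ (u = (2, t + 1, 0) ∧ v = (2, t, 0))) ∨
    (u = (2, 0, 0) ∧ v = (2, 2 * j, 0)) ∨
    (u = (2, 2 * j, 0) ∧ DV φ v) ∨ (DV φ u ∧ v = (2, 0, 0)) ∨
    (∃ t < φ.length, ∃ i < 3, (u = (1, t, i) ∧ v = (0, ov φ t i, 0)) ∨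
      (u = (0, ov φ t i, 0) ∧ v = (1, t, i))) ∨
    ∃ t < φ.length, ∃ i < 3, u = (1, t, i) ∧ v = (1, t, (i + 1) % 3) := by
  rw [mem_mid] at h
  rcases h with ⟨t, ht, h⟩ | h | ⟨t, ht, h⟩
  · left
    refine ⟨t, ht, ?_⟩
    rcases h with h | h
    · left; exact Prod.mk.inj h
    · right; exact Prod.mk.inj h
  · right; left; exact Prod.mk.inj h
  · rw [mem_clause] at h
    obtain ⟨i, hi, h⟩ := h
    rcases h with h | h | h | h | h | h | h
    · obtain ⟨h1, h2⟩ := Prod.mk.inj h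
      exact Or.inr (Or.inr (Or.inr (Or.inr (Or.inl ⟨t, ht, i, hi, Or.inl ⟨h1, h2⟩⟩))))
    · obtain ⟨h1, h2⟩ := Prod.mk.inj h
      exact Or.inr (Or.inr (Or.inr (Or.inr (Or.inl ⟨t, ht, i, hi, Or.inr ⟨h1, h2⟩⟩))))
    · obtain ⟨h1, h2⟩ := Prod.mk.inj h
      exact Or.inr (Or.inr (Or.inr (Or.inr (Or.inr ⟨t, ht, i, hi, h1, h2⟩))))
    · obtain ⟨h1, h2⟩ := Prod.mk.inj h
      exact Or.inr (Or.inr (Or.inl ⟨h1, t, ht, i, hi, Or.inl h2⟩))
    · obtain ⟨h1, h2⟩ := Prod.mk.inj h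
      exact Or.inr (Or.inr (Or.inl ⟨h1, t, ht, i, hi, Or.inr h2⟩))
    · obtain ⟨h1, h2⟩ := Prod.mk.inj h
      exact Or.inr (Or.inr (Or.inr (Or.inl ⟨⟨t, ht, i, hi, Or.inl h1⟩, h2⟩)))
    · obtain ⟨h1, h2⟩ := Prod.mk.inj h
      exact Or.inr (Or.inr (Or.inr (Or.inl ⟨⟨t, ht, i, hi, Or.inr h1⟩, h2⟩)))

theorem loopless_mid {j : ℕ} (hj : 1 ≤ j) (φ : N3) : Loopless (midDg j φ) := by
  rintro ⟨u, v⟩ h huv
  simp only at huv
  subst huv
  rcases mid_cases h with ⟨t, ht, h | h⟩ | h | h | h | ⟨t, ht, i, hi, h | h⟩ | ⟨t, ht, i, hi, h⟩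
  · obtain ⟨h1, h2⟩ := h
    rw [h1] at h2
    simp at h2
  · obtain ⟨h1, h2⟩ := h
    rw [h1] at h2
    simp at h2
  · obtain ⟨h1, h2⟩ := h
    rw [h1] at h2
    simp at h2
    omega
  · obtain ⟨h1, t, ht, i, hi, h2 | h2⟩ := h
    · rw [h1] at h2; simp at h2
    · rw [h1] at h2; simp at h2
  · obtain ⟨⟨t, ht, i, hi, h2 | h2⟩, h1⟩ := h
    · rw [h1] at h2; simp at h2
    · rw [h1] at h2; simp at h2
  · obtain ⟨h1, h2⟩ := h
    rw [h1] at h2
    simp at h2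
  · obtain ⟨h1, h2⟩ := h
    rw [h1] at h2
    simp at h2
  · obtain ⟨h1, h2⟩ := h
    rw [h1] at h2
    simp at h2
    omega

/-- The structure of the sets `Y` with successors and predecessors. -/
theorem cyc_mid {j : ℕ} (hj : 1 ≤ j) (φ : N3) {Y : Set Vx} (hY : Cyc (midDg j φ) Y) :
    (∃ t < 2 * j, ((2, t, 0) : Vx) ∈ Y ∧ ((2, t + 1, 0) : Vx) ∈ Y) ∨
    (∃ v, DV φ v ∧ v ∈ Y ∧ ((2, 0, 0) : Vx) ∈ Y ∧ ((2, 2 * j, 0) : Vx) ∈ Y) ∨
    (∃ t < φ.length, ∃ i < 3, ((1, t, i) : Vx) ∈ Y ∧ ((0, ov φ t i, 0) : Vx) ∈ Y) ∨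
    (∃ t < φ.length, ∀ i < 3, ((1, t, i) : Vx) ∈ Y) := by
  obtain ⟨⟨y, hy⟩, hs, hp⟩ := hY
  by_contra hcon
  push Not at hcon
  obtain ⟨c1, c2, c3, c4⟩ := hcon
  -- arcs inside `Y`
  have key : ∀ u v : Vx, u ∈ Y → v ∈ Y → (u, v) ∈ midDg j φ →
      (u = (2, 0, 0) ∧ v = (2, 2 * j, 0)) ∨
      (u = (2, 2 * j, 0) ∧ DV φ v) ∨ (DV φ u ∧ v = (2, 0, 0)) ∨
      ∃ t < φ.length, ∃ i < 3, u = (1, t, i) ∧ v = (1, t, (i + 1) % 3) := by
    intro u v hu hv h
    rcases mid_cases h with ⟨t, ht, h | h⟩ | h | h | h | ⟨t, ht, i, hi, h | h⟩ | h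
    · obtain ⟨rfl, rfl⟩ := h
      exact absurd hv (c1 t ht hu)
    · obtain ⟨rfl, rfl⟩ := h
      exact absurd hu (c1 t ht hv)
    · exact Or.inl h
    · exact Or.inr (Or.inl h)
    · exact Or.inr (Or.inr (Or.inl h))
    · obtain ⟨rfl, rfl⟩ := h
      exact absurd hv (c3 t ht i hi hu)
    · obtain ⟨rfl, rfl⟩ := h
      exact absurd hu (c3 t ht i hi hv)
    · exact Or.inr (Or.inr (Or.inr h))
  have dv2 : ∀ a : ℕ, ¬ DV φ (2, a, 0) := by
    rintro a ⟨t, ht, i, hi, h | h⟩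
    · simp at h
    · simp at h
  -- no vertex of the path
  have n1 : ((2, 0, 0) : Vx) ∉ Y := by
    intro h1
    obtain ⟨u, hu, he⟩ := hs _ h1
    obtain ⟨w, hw, hf⟩ := hp _ h1
    have hz : ((2, 2 * j, 0) : Vx) ∈ Y := by
      rcases key _ _ h1 hu he with h | h | h | ⟨t, ht, i, hi, h⟩
      · rw [h.2] at hu; exact hu
      · have := h.1
        simp at this
        omega
      · exact absurd h.1 (dv2 _)
      · have := h.1
        simp at this
    rcases key _ _ hw h1 hf with h | h | h | ⟨t, ht, i, hi, h⟩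
    · have := h.2
      simp at this
      omega
    · exact absurd h.2 (dv2 _)
    · exact c2 w h.1 hw h1 hz
    · have := h.2
      simp at this
  have n2 : ((2, 2 * j, 0) : Vx) ∉ Y := by
    intro h1
    obtain ⟨w, hw, hf⟩ := hp _ h1
    rcases key _ _ hw h1 hf with h | h | h | ⟨t, ht, i, hi, h⟩
    · rw [h.1] at hw; exact n1 hw
    · exact absurd h.2 (dv2 _)
    · have := h.2
      simp at this
      omega
    · have := h.2
      simp at this
  have key2 : ∀ u v : Vx, u ∈ Y → v ∈ Y → (u, v) ∈ midDg j φ →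
      ∃ t < φ.length, ∃ i < 3, u = (1, t, i) ∧ v = (1, t, (i + 1) % 3) := by
    intro u v hu hv h
    rcases key u v hu hv h with h | h | h | h
    · rw [h.1] at hu; exact absurd hu n1
    · rw [h.1] at hu; exact absurd hu n2
    · rw [h.2] at hv; exact absurd hv n1
    · exact h
  have nxt : ∀ t i : ℕ, i < 3 → ((1, t, i) : Vx) ∈ Y → ((1, t, (i + 1) % 3) : Vx) ∈ Y := by
    intro t i hi h1
    obtain ⟨u, hu, he⟩ := hs _ h1
    obtain ⟨t', ht', i', hi', h2, h3⟩ := key2 _ _ h1 hu he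
    simp only [Prod.mk.injEq, true_and] at h2
    obtain ⟨rfl, rfl⟩ := h2
    rw [h3] at hu
    exact hu
  obtain ⟨u, hu, he⟩ := hs y hy
  obtain ⟨t, ht, i, hi, h2, -⟩ := key2 _ _ hy hu he
  rw [h2] at hy
  have a1 := nxt t i hi hy
  have a2 := nxt t _ (Nat.mod_lt _ (by norm_num)) a1
  obtain ⟨i', hi', hn⟩ := c4 t ht
  apply hn
  have h3 : i = 0 ∨ i = 1 ∨ i = 2 := by omega
  have h4 : i' = 0 ∨ i' = 1 ∨ i' = 2 := by omega
  rcases h3 with rfl | rfl | rfl <;> rcases h4 with rfl | rfl | rfl <;>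
    first | exact hy | exact a1 | exact a2

end Pool.Agent.R117.SD
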