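import Pool.Agent.R117.SD.MidA

/-!
# MP_77e9aa_lc: the case `2 < p < 3`, from assignments to colourings
-/

set_option autoImplicit false

namespace Pool.Agent.R117.SD

open Pool.Agent.NPC Pool.Agent.R544 Pool.Agent.R539.SD

/-- the colouring -/
def colM (j : ℕ) (φ : N3) (τ : ℕ → Bool) (v : Vx) : ℕ :=
  if v.1 = 2 then
    (if 2 * j < v.2.1 then 0 else if v.2.1 % 2 = 0 then v.2.1 / 2 else v.2.1 / 2 + j + 2)
  else if v.1 = 0 then (if τ v.2.1 then j + 1 else 2 * j + 2)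
  else (if τ (ov φ v.2.1 v.2.2) then 2 * j + 2 else j + 1)

theorem colM_lt (j : ℕ) (φ : N3) (τ : ℕ → Bool) (v : Vx) : colM j φ τ v < 2 * j + 3 := by
  unfold colM
  split_ifs <;> omega

theorem colM_path (j : ℕ) (φ : N3) (τ : ℕ → Bool) (t : ℕ) (ht : t ≤ 2 * j) :
    colM j φ τ (2, t, 0) = if t % 2 = 0 then t / 2 else t / 2 + j + 2 := by
  unfold colM
  simp only [if_true]
  rw [if_neg (by omega)]

theorem hit_pair {j a b : ℕ} {C : Vx → ℕ} {Y : Set Vx} {u v : Vx} (hu : u ∈ Y) (hv : v ∈ Y)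
    (hCu : C u = a) (hCv : C v = b) (ha : a < 2 * j + 3) (hb : b < 2 * j + 3)
    (h : b = a + (j + 1) ∨ b = a + (j + 2) ∨ a = b + (j + 1) ∨ a = b + (j + 2)) :
    Hit (2 * j + 3) (j + 2) C Y := by
  intro y hy
  by_cases h1 : W (2 * j + 3) (j + 2) y (C u)
  · exact ⟨u, hu, h1⟩
  · refine ⟨v, hv, ?_⟩
    unfold W at h1 ⊢
    rw [hCu] at h1
    rw [hCv]
    omega

theorem hit_triple {j x : ℕ} {C : Vx → ℕ} {Y : Set Vx} {u v w : Vx} (hu : u ∈ Y) (hv : v ∈ Y)
    (hw : w ∈ Y) (hCu : C u = 0) (hCv : C v = j) (hCw : C w = x)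
    (hx : x = j + 1 ∨ x = 2 * j + 2) :
    Hit (2 * j + 3) (j + 2) C Y := by
  intro y hy
  by_cases h1 : W (2 * j + 3) (j + 2) y (C u)
  · exact ⟨u, hu, h1⟩
  by_cases h2 : W (2 * j + 3) (j + 2) y (C v)
  · exact ⟨v, hv, h2⟩
  refine ⟨w, hw, ?_⟩
  unfold W at h1 h2 ⊢
  rw [hCu] at h1
  rw [hCv] at h2
  rw [hCw]
  omega

theorem forward {j : ℕ} (hj : 1 ≤ j) {φ : N3} (h : NAE3 φ) :
    ∃ C : Vx → ℕ, (∀ v, C v < 2 * j + 3) ∧
      ∀ Y : Set Vx, Cyc (midDg j φ) Y → Hit (2 * j + 3) (j + 2) C Y := by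
  obtain ⟨τ, hτ⟩ := (nae3_iff φ).1 h
  refine ⟨colM j φ τ, colM_lt j φ τ, fun Y hY => ?_⟩
  have hD : ∀ v, DV φ v → colM j φ τ v = j + 1 ∨ colM j φ τ v = 2 * j + 2 := by
    rintro v ⟨t, ht, i, hi, rfl | rfl⟩
    · unfold colM
      simp only [OfNat.one_ne_ofNat, if_false, one_ne_zero]
      split_ifs <;> simp
    · unfold colM
      simp only [OfNat.zero_ne_ofNat, if_false, if_true]
      split_ifs <;> simp
  have hocc : ∀ t i, colM j φ τ (1, t, i) = if τ (ov φ t i) then 2 * j + 2 else j + 1 := by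
    intro t i
    unfold colM
    simp
  have hvar : ∀ a, colM j φ τ (0, a, 0) = if τ a then j + 1 else 2 * j + 2 := by
    intro a
    unfold colM
    simp
  rcases cyc_mid hj φ hY with ⟨t, ht, h1, h2⟩ | ⟨v, hv, h1, h2, h3⟩ | ⟨t, ht, i, hi, h1, h2⟩ |
    ⟨t, ht, h1⟩
  · refine hit_pair h1 h2 rfl rfl (colM_lt j φ τ _) (colM_lt j φ τ _) ?_
    rw [colM_path j φ τ t (by omega), colM_path j φ τ (t + 1) (by omega)]
    split_ifs <;> omega
  · refine hit_triple h2 h3 h1 ?_ ?_ rfl (hD v hv)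
    · rw [colM_path j φ τ 0 (by omega)]
      simp
    · rw [colM_path j φ τ (2 * j) (by omega), if_pos (by omega)]
      omega
  · refine hit_pair h1 h2 (hocc t i) (hvar _) ?_ ?_ ?_
    · split_ifs <;> omega
    · split_ifs <;> omega
    · split_ifs <;> omega
  · have hn := hτ t ht
    have e0 : ov φ t 0 = (tr φ t).1 := rfl
    have e1 : ov φ t 1 = (tr φ t).2.1 := rfl
    have e2 : ov φ t 2 = (tr φ t).2.2 := rfl
    rw [← e0, ← e1, ← e2] at hn
    by_cases h01 : τ (ov φ t 0) = τ (ov φ t 1)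
    · have h12 : τ (ov φ t 1) ≠ τ (ov φ t 2) := fun h => hn ⟨h01, h⟩
      refine hit_pair (h1 1 (by norm_num)) (h1 2 (by norm_num)) (hocc t 1) (hocc t 2) ?_ ?_ ?_
      · split_ifs <;> omega
      · split_ifs <;> omega
      · cases ha : τ (ov φ t 1) <;> cases hb : τ (ov φ t 2)
        · exact absurd (ha.trans hb.symm) h12
        · simp only [Bool.false_eq_true, if_false, if_true]
          omega
        · simp only [Bool.false_eq_true, if_false, if_true]
          omega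
        · exact absurd (ha.trans hb.symm) h12
    · refine hit_pair (h1 0 (by norm_num)) (h1 1 (by norm_num)) (hocc t 0) (hocc t 1) ?_ ?_ ?_
      · split_ifs <;> omega
      · split_ifs <;> omega
      · cases ha : τ (ov φ t 0) <;> cases hb : τ (ov φ t 1)
        · exact absurd (ha.trans hb.symm) h01
        · simp only [Bool.false_eq_true, if_false, if_true]
          omega
        · simp only [Bool.false_eq_true, if_false, if_true]
          omega
        · exact absurd (ha.trans hb.symm) h01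

end Pool.Agent.R117.SD
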